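import Pool.Agent.Helper32.OIP.Goals

/-!
# Packet OIP-MA1

Infinite product measures: coordinatewise maps, reindexing, shifts.
-/

namespace Pool.Agent.Helper85.OIP

open MeasureTheory Pool.Agent.Helper32.OIP Pool.Agent.Helper58.Orb

/-- reindexing by a bijection -/
theorem mp_reindex (A B E : Type) [MeasurableSpace E] (ν : Measure E) [IsProbabilityMeasure ν]
    (e : B → A) (he : Function.Bijective e) :
    MeasurePreserving (fun (z : A → E) (b : B) => z (e b)) (pm A ν) (pm B ν) := by
  classical
  have hm : Measurable (fun (z : A → E) (b : B) => z (e b)) := by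
    apply measurable_pi_lambda
    intro b
    exact measurable_pi_apply _
  refine ⟨hm, ?_⟩
  unfold pm
  refine Measure.eq_infinitePi _ fun s t ht => ?_
  rw [Measure.map_apply hm (MeasurableSet.pi s.countable_toSet fun i _ => ht i)]
  obtain ⟨g, hg⟩ : ∃ g : A → B, Function.LeftInverse g e :=
    ⟨(Equiv.ofBijective e he).symm, (Equiv.ofBijective e he).symm_apply_apply⟩
  have hset : (fun (z : A → E) (b : B) => z (e b)) ⁻¹' (Set.pi s t) =
      Set.pi ((s.image e : Finset A) : Set A) (fun a => t (g a)) := by
    ext z
    constructor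
    · intro hz a ha
      obtain ⟨b, hb, rfl⟩ := Finset.mem_image.1 (Finset.mem_coe.1 ha)
      have := hz b (Finset.mem_coe.2 hb)
      simpa only [hg b] using this
    · intro hz b hb
      have := hz (e b) (Finset.mem_coe.2 (Finset.mem_image_of_mem e (Finset.mem_coe.1 hb)))
      simpa only [hg b] using this
  rw [hset, Measure.infinitePi_pi (μ := fun _ : A => ν) (fun i _ => ht (g i)),
    Finset.prod_image (fun x _ y _ h => he.1 h)]
  refine Finset.prod_congr rfl fun b _ => ?_
  rw [hg b]

/-- **Packet OIP-MA1.** -/
theorem ma1 : GoalMA1 := by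
  refine ⟨?_, mp_reindex, ?_⟩
  · intro A E E' _ _ ν ν' _ _ f hf
    refine ⟨?_, ?_⟩
    · apply measurable_pi_lambda
      intro a
      exact (hf a).measurable.comp (measurable_pi_apply a)
    · have h := Measure.infinitePi_map_pi (μ := fun _ : A => ν) (fun a => (hf a).measurable)
      unfold pm
      rw [h]
      congr 1
      funext a
      exact (hf a).map_eq
  · intro A E _ _ ν _ g
    exact mp_reindex A A E ν (fun h => g⁻¹ * h) (Group.mulLeft_bijective g⁻¹)

end Pool.Agent.Helper85.OIP
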